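import Pool.Agent.MVD.StmtsLoc

set_option autoImplicit false

/-! Squad MVD, row ERN: renaming. -/

namespace Pool.Agent.MVD.H89

open Pool.Agent.Helper14_MV Pool.Agent.Helper2_MV Pool.Agent.MVD

/-- the renaming of the letters -/
def gg (x y s1 s2 x' y' r1 r2 a : ℕ) : ℕ :=
  if a = x' then x else if a = y' then y else
    if a = 3 * (r1 + 1) + 2 then 3 * (s1 + 1) + 2 else
      if a = 3 * (r2 + 1) + 2 then 3 * (s2 + 1) + 2 else a

theorem sub_map {β : FIC} (g : ℕ → ℕ) {l l' : List ℕ} (h : RR β l l') :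
    RR β (l.map g) (l'.map g) := by
  have h1 := h.sub (fun a => [g a])
  have e : ∀ m : List ℕ, m.flatMap (fun a => [g a]) = m.map g := by
    intro m
    induction m with
    | nil => rfl
    | cons a m ih => rw [List.flatMap_cons, ih, List.map_cons]; rfl
  rwa [e, e] at h1

section

variable {x y s1 s2 x' y' r1 r2 : ℕ}

/-- the blocks -/
def FF' (x s1 s2 : ℕ) (L : List ℕ) (r : ℕ) : List ℕ :=
  (if r = 0 then L else [kx x s1 s2 (r - 1)]) ++ [3 * r + 2]

theorem piece (hx' : x' % 3 = 0) (hy' : y' % 3 = 0) (L L' : List ℕ) (P : List ℕ)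
    (hP : ∀ i ∈ P, i ≠ r1 ∧ i ≠ r2 ∧ i ≠ s1 ∧ i ≠ s2) :
    ((P.map (fun e => e + 1)).flatMap (FF' x' r1 r2 L')).map (gg x y s1 s2 x' y' r1 r2) =
      (P.map (fun e => e + 1)).flatMap (FF' x s1 s2 L) := by
  induction P with
  | nil => rfl
  | cons i P ih =>
    obtain ⟨h1, h2, h3, h4⟩ := hP i List.mem_cons_self
    rw [List.map_cons, List.flatMap_cons, List.flatMap_cons, List.map_append,
      ih (fun j hj => hP j (List.mem_cons_of_mem _ hj))]
    have e1 : gg x y s1 s2 x' y' r1 r2 (3 * i + 1) = 3 * i + 1 := by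
      unfold gg
      rw [if_neg (by omega), if_neg (by omega), if_neg (by omega), if_neg (by omega)]
    have e2 : gg x y s1 s2 x' y' r1 r2 (3 * (i + 1) + 2) = 3 * (i + 1) + 2 := by
      unfold gg
      rw [if_neg (by omega), if_neg (by omega), if_neg (by omega), if_neg (by omega)]
    have e3 : (FF' x' r1 r2 L' (i + 1)).map (gg x y s1 s2 x' y' r1 r2) =
        FF' x s1 s2 L (i + 1) := by
      have k1 : kx x' r1 r2 i = 3 * i + 1 := by
        unfold kx
        rw [if_neg (by rintro (h | h); exacts [h1 h, h2 h])]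
      have k2 : kx x s1 s2 i = 3 * i + 1 := by
        unfold kx
        rw [if_neg (by rintro (h | h); exacts [h3 h, h4 h])]
      unfold FF'
      rw [if_neg (Nat.succ_ne_zero i), if_neg (Nat.succ_ne_zero i), Nat.add_sub_cancel, k1, k2]
      simp only [List.cons_append, List.nil_append, List.map_cons, List.map_nil, e1, e2]
    rw [e3]

theorem spec (hx' : x' % 3 = 0) (hy' : y' % 3 = 0) (L L' : List ℕ) (h12 : r1 ≠ r2) :
    (FF' x' r1 r2 L' (r1 + 1)).map (gg x y s1 s2 x' y' r1 r2) = FF' x s1 s2 L (s1 + 1) ∧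
    (FF' x' r1 r2 L' (r2 + 1)).map (gg x y s1 s2 x' y' r1 r2) = FF' x s1 s2 L (s2 + 1) := by
  have e0 : gg x y s1 s2 x' y' r1 r2 x' = x := by
    unfold gg
    rw [if_pos rfl]
  have e1 : gg x y s1 s2 x' y' r1 r2 (3 * (r1 + 1) + 2) = 3 * (s1 + 1) + 2 := by
    unfold gg
    rw [if_neg (by omega), if_neg (by omega), if_pos rfl]
  have e2 : gg x y s1 s2 x' y' r1 r2 (3 * (r2 + 1) + 2) = 3 * (s2 + 1) + 2 := by
    unfold gg
    rw [if_neg (by omega), if_neg (by omega), if_neg (by omega), if_pos rfl]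
  constructor
  · unfold FF'
    rw [if_neg (Nat.succ_ne_zero _), if_neg (Nat.succ_ne_zero _), Nat.add_sub_cancel,
      Nat.add_sub_cancel]
    have k1 : kx x' r1 r2 r1 = x' := by unfold kx; rw [if_pos (Or.inl rfl)]
    have k2 : kx x s1 s2 s1 = x := by unfold kx; rw [if_pos (Or.inl rfl)]
    rw [k1, k2]
    simp only [List.cons_append, List.nil_append, List.map_cons, List.map_nil, e0, e1]
  · unfold FF'
    rw [if_neg (Nat.succ_ne_zero _), if_neg (Nat.succ_ne_zero _), Nat.add_sub_cancel,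
      Nat.add_sub_cancel]
    have k1 : kx x' r1 r2 r2 = x' := by unfold kx; rw [if_pos (Or.inr rfl)]
    have k2 : kx x s1 s2 s2 = x := by unfold kx; rw [if_pos (Or.inr rfl)]
    rw [k1, k2]
    simp only [List.cons_append, List.nil_append, List.map_cons, List.map_nil, e0, e2]

theorem ew_eq (x s1 s2 : ℕ) (P1 P2 P3 Q L : List ℕ) :
    EW x s1 s2 P1 P2 P3 Q L =
      (P1.map (fun e => e + 1)).flatMap (FF' x s1 s2 L) ++ (FF' x s1 s2 L (s1 + 1) ++
        ((P2.map (fun e => e + 1)).flatMap (FF' x s1 s2 L) ++ (FF' x s1 s2 L (s2 + 1) ++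
          ((P3.map (fun e => e + 1)).flatMap (FF' x s1 s2 L) ++ (FF' x s1 s2 L 0 ++
            (Q.map (fun e => e + 1)).flatMap (FF' x s1 s2 L)))))) := by
  have h1 : EW x s1 s2 P1 P2 P3 Q L =
      (lab (P1 ++ s1 :: (P2 ++ s2 :: P3)) Q).flatMap (FF' x s1 s2 L) := rfl
  rw [h1]
  unfold lab
  simp only [List.map_append, List.map_cons, List.flatMap_append, List.flatMap_cons,
    List.append_assoc, List.cons_append]

end

theorem ern : ErnStmt := by
  intro β n x y s1 s2 x' y' r1 r2 P1 P2 P3 Q α h hx' hx27 hy' hy27 hxy' hnd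
  have hd := h.nd
  have hmem : ∀ i ∈ P1 ++ (P2 ++ (P3 ++ Q)), i ≠ r1 ∧ i ≠ r2 ∧ i ≠ s1 ∧ i ≠ s2 := by
    have key : ∀ a b : ℕ, ((P1 ++ a :: (P2 ++ b :: P3)) ++ Q).Nodup →
        ∀ i ∈ P1 ++ (P2 ++ (P3 ++ Q)), i ≠ a ∧ i ≠ b := by
      intro a b hn i hi
      have e : ((P1 ++ a :: (P2 ++ b :: P3)) ++ Q).Perm (a :: b :: (P1 ++ (P2 ++ (P3 ++ Q)))) := by
        rw [List.perm_iff_count]
        intro c
        simp only [List.count_append, List.count_cons]
        omega
      have h2 := (e.nodup_iff).1 hn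
      rw [List.nodup_cons, List.nodup_cons] at h2
      constructor
      · rintro rfl
        exact h2.1 (List.mem_cons_of_mem _ hi)
      · rintro rfl
        exact h2.2.1 hi
    intro i hi
    obtain ⟨h1, h2⟩ := key r1 r2 hnd i hi
    obtain ⟨h3, h4⟩ := key s1 s2 hd i hi
    exact ⟨h1, h2, h3, h4⟩
  have h12 : r1 ≠ r2 := by
    rintro rfl
    have e : ((P1 ++ r1 :: (P2 ++ r1 :: P3)) ++ Q).Perm
        (r1 :: r1 :: (P1 ++ (P2 ++ (P3 ++ Q)))) := by
      rw [List.perm_iff_count]
      intro c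
      simp only [List.count_append, List.count_cons]
      omega
    have h2 := (e.nodup_iff).1 hnd
    rw [List.nodup_cons] at h2
    exact h2.1 List.mem_cons_self
  set g := gg x y s1 s2 x' y' r1 r2 with hg
  have gx : g x' = x := by rw [hg]; unfold gg; rw [if_pos rfl]
  have gy : g y' = y := by
    rw [hg]; unfold gg; rw [if_neg (fun e => hxy' e.symm), if_pos rfl]
  have gα : α.map g = α := by
    have h1 : ∀ a ∈ α, g a = a := by
      intro a ha
      have h2 := h.can.sf a ha
      have h3 : a ≠ x' ∧ a ≠ y' := by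
        rcases Nat.lt_or_ge a 27 with h4 | h4
        · have h5 : a % 3 ≠ 0 := by
            intro h5
            have := (h.can.lc a ha h5).2
            omega
          omega
        · omega
      rw [hg]
      unfold gg
      rw [if_neg h3.1, if_neg h3.2, if_neg (by omega), if_neg (by omega)]
    rw [List.map_congr_left h1, List.map_id']
  have g2 : g 2 = 2 := by
    rw [hg]
    unfold gg
    rw [if_neg (by omega), if_neg (by omega), if_neg (by omega), if_neg (by omega)]
  have key : ∀ u v : ℕ, (EW x' r1 r2 P1 P2 P3 Q (y' :: (α ++ [u, v]))).map g =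
      EW x s1 s2 P1 P2 P3 Q (y :: (α ++ [g u, g v])) := by
    intro u v
    rw [ew_eq, ew_eq]
    simp only [List.map_append]
    obtain ⟨q1, q2⟩ := spec (x := x) (y := y) (s1 := s1) (s2 := s2) hx' hy'
      (y :: (α ++ [g u, g v])) (y' :: (α ++ [u, v])) h12
    rw [← hg] at q1 q2
    have p1 := piece (x := x) (y := y) (s1 := s1) (s2 := s2) (r1 := r1) (r2 := r2) hx' hy'
      (y :: (α ++ [g u, g v])) (y' :: (α ++ [u, v])) P1
      (fun i hi => hmem i (List.mem_append_left _ hi))
    have p2 := piece (x := x) (y := y) (s1 := s1) (s2 := s2) (r1 := r1) (r2 := r2) hx' hy'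
      (y :: (α ++ [g u, g v])) (y' :: (α ++ [u, v])) P2
      (fun i hi => hmem i (List.mem_append_right _ (List.mem_append_left _ hi)))
    have p3 := piece (x := x) (y := y) (s1 := s1) (s2 := s2) (r1 := r1) (r2 := r2) hx' hy'
      (y :: (α ++ [g u, g v])) (y' :: (α ++ [u, v])) P3
      (fun i hi => hmem i (List.mem_append_right _ (List.mem_append_right _
        (List.mem_append_left _ hi))))
    have p4 := piece (x := x) (y := y) (s1 := s1) (s2 := s2) (r1 := r1) (r2 := r2) hx' hy'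
      (y :: (α ++ [g u, g v])) (y' :: (α ++ [u, v])) Q
      (fun i hi => hmem i (List.mem_append_right _ (List.mem_append_right _
        (List.mem_append_right _ hi))))
    rw [← hg] at p1 p2 p3 p4
    have q0 : (FF' x' r1 r2 (y' :: (α ++ [u, v])) 0).map g =
        FF' x s1 s2 (y :: (α ++ [g u, g v])) 0 := by
      unfold FF'
      rw [if_pos rfl, if_pos rfl]
      simp only [List.map_append, List.map_cons, List.map_nil, gy, gα, Nat.mul_zero, Nat.zero_add,
        g2]
    rw [p1, p2, p3, p4, q1, q2, q0]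
  refine ⟨h.hc, h.vx, h.ef, h.can, hnd, h.len, ⟨hx', hx27⟩, ⟨hy', hy27⟩, hxy', ?_⟩
  intro hR
  have h1 := sub_map g hR
  rw [key, key, gx, gy] at h1
  exact h.nr h1

end Pool.Agent.MVD.H89
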